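import Pool.Agent.Y789.DI.Ex

/-!
The integral closures of the second and the third power of the ideal.
-/

set_option autoImplicit false

open MvPolynomial

namespace Pool.Agent.Y789.DI

/-- The exponents of `x₃` and `x₄`. -/
def Avec : Fin 2 → Fin 5 → ℕ := ![![0, 0, 1, 0, 0], ![0, 0, 0, 1, 0]]

/-- The exponents of the four generators of the second factor. -/
def Bvec : Fin 4 → Fin 5 → ℕ :=
  ![![1, 1, 4, 7, 0], ![0, 1, 8, 4, 0], ![0, 0, 12, 0, 1], ![1, 2, 0, 10, 0]]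

/-- The exponents of the eight generators. -/
noncomputable def G (p : Fin 2 × Fin 4) : Fin 5 →₀ ℕ :=
  Finsupp.equivFunOnFinite.symm (fun i => Avec p.1 i + Bvec p.2 i)

theorem G_apply (p : Fin 2 × Fin 4) (i : Fin 5) : G p i = Avec p.1 i + Bvec p.2 i := rfl

theorem B_le_G (p : Fin 2 × Fin 4) (j : Fin 11) : B j ≤ wt (W j) (G p) := by
  have h : ∀ (p : Fin 2 × Fin 4) (j : Fin 11),
      B j ≤ ∑ i, W j i * (Avec p.1 i + Bvec p.2 i) := by decide
  exact h p j

theorem comb {n : ℕ} (hn : 1 ≤ n) (hn3 : n ≤ 3) {β : Fin 5 →₀ ℕ}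
    (h : ∀ j, n * B j ≤ wt (W j) β) :
    ∃ N : ℕ, 1 ≤ N ∧ ∃ c : Fin 2 × Fin 4 → ℕ, ∑ p, c p = n * N ∧
      ∀ i, ∑ p, c p * (Avec p.1 i + Bvec p.2 i) ≤ N * β i := by
  obtain ⟨b0, b1, b2, b3, b4, b5, b6, b7, b8, b9, b10⟩ := B_eq
  have h0 := h 0
  have h1 := h 1
  have h2 := h 2
  have h3 := h 3
  have h4 := h 4
  have h5 := h 5
  have h6 := h 6
  have h7 := h 7
  have h8 := h 8
  have h9 := h 9
  have h10 := h 10
  rw [w0, b0] at h0
  rw [w1, b1] at h1
  rw [w2, b2] at h2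
  rw [w3, b3] at h3
  rw [w4, b4] at h4
  rw [w5, b5] at h5
  rw [w6, b6] at h6
  rw [w7, b7] at h7
  rw [w8, b8] at h8
  rw [w9, b9] at h9
  rw [w10, b10] at h10
  have ha : n * 14 ≤ β 0 + β 1 + β 2 + β 3 + β 4 := by omega
  have q0 : (n : ℚ) * 43 ≤ 3 * β 2 + 4 * β 3 + 4 * β 4 := by exact_mod_cast h0
  have q1 : (n : ℚ) * 12 ≤ 4 * β 0 + 4 * β 1 + β 2 := by exact_mod_cast h1
  have q2 : (n : ℚ) * 13 ≤ 2 * β 0 + β 2 + β 3 := by exact_mod_cast h2
  have q3 : (n : ℚ) * 13 ≤ β 1 + β 2 + β 3 := by exact_mod_cast h3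
  have q4 : (n : ℚ) * 1 ≤ β 1 + β 4 := by exact_mod_cast h4
  have q5 : (n : ℚ) * 4 ≤ β 3 + 4 * β 4 := by exact_mod_cast h5
  have q6 : (n : ℚ) * 65 ≤ 5 * β 2 + 6 * β 3 := by exact_mod_cast h6
  have q7 : (n : ℚ) * 11 ≤ β 2 + β 3 := by exact_mod_cast h7
  have q8 : (n : ℚ) * 12 ≤ 8 * β 1 + β 2 := by exact_mod_cast h8
  have q9 : (n : ℚ) * 8 ≤ 4 * β 1 + β 2 := by exact_mod_cast h9
  have q10 : (n : ℚ) * 8 ≤ 8 * β 0 + β 2 := by exact_mod_cast h10
  have qa : (n : ℚ) * 14 ≤ β 0 + β 1 + β 2 + β 3 + β 4 := by exact_mod_cast ha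
  have p0 : (0 : ℚ) ≤ β 0 := Nat.cast_nonneg _
  have p1 : (0 : ℚ) ≤ β 1 := Nat.cast_nonneg _
  have p2 : (0 : ℚ) ≤ β 2 := Nat.cast_nonneg _
  have p3 : (0 : ℚ) ≤ β 3 := Nat.cast_nonneg _
  have p4 : (0 : ℚ) ≤ β 4 := Nat.cast_nonneg _
  have pn : (0 : ℚ) < n := by exact_mod_cast hn
  obtain ⟨t, m0, m2, m3, e1, e2, e3, e4, e5, e6, e7, e8, e9, e10, e11⟩ :=
    weights (n := (n : ℚ)) (b1 := (β 0 : ℚ)) (b2 := (β 1 : ℚ)) (b3 := (β 2 : ℚ))
      (b4 := (β 3 : ℚ)) (b5 := (β 4 : ℚ))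
      (by linarith) (by linarith) (by linarith) (by linarith) (by linarith) (by linarith)
      (by linarith) (by linarith) (by linarith) (by linarith) (by linarith) (by linarith)
      (by linarith) (by linarith) (by linarith) (by linarith) (by linarith) (by linarith)
  set lam : Fin 2 → ℚ := ![(n : ℚ) - t, t] with hlam
  set mu : Fin 4 → ℚ := ![m0, (n : ℚ) - m0 - m2 - m3, m2, m3] with hmu
  have hl0 : ∀ i, 0 ≤ lam i := by
    intro i
    fin_cases i
    · show 0 ≤ (n : ℚ) - t; linarith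
    · show 0 ≤ t; linarith
  have hm0 : ∀ i, 0 ≤ mu i := by
    intro i
    fin_cases i
    · show 0 ≤ m0; linarith
    · show 0 ≤ (n : ℚ) - m0 - m2 - m3; linarith
    · show 0 ≤ m2; linarith
    · show 0 ≤ m3; linarith
  have hlsum : ∑ i, lam i = n := by
    rw [Fin.sum_univ_two]; show (n : ℚ) - t + t = n; ring
  have hmsum : ∑ i, mu i = n := by
    rw [Fin.sum_univ_four]; show m0 + ((n : ℚ) - m0 - m2 - m3) + m2 + m3 = n; ring
  obtain ⟨N, hN, c, hc⟩ := exists_den (Finset.univ : Finset (Fin 2 × Fin 4))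
    (fun p => lam p.1 * mu p.2 / n) (fun p _ =>
      div_nonneg (mul_nonneg (hl0 _) (hm0 _)) pn.le)
  refine ⟨N, hN, c, ?_, ?_⟩
  · have : ((∑ p, c p : ℕ) : ℚ) = ((n * N : ℕ) : ℚ) := by
      push_cast
      rw [Finset.sum_congr rfl hc, ← Finset.mul_sum, Fintype.sum_prod_type]
      simp only [← Finset.sum_div, ← Finset.mul_sum]
      rw [hmsum, ← Finset.sum_mul, hlsum]
      field_simp
    exact_mod_cast this
  · intro i
    have key : ∑ p : Fin 2 × Fin 4, (lam p.1 * mu p.2 / n) * ((Avec p.1 i : ℚ) + Bvec p.2 i) =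
        ∑ s, lam s * Avec s i + ∑ j, mu j * Bvec j i := by
      rw [Fintype.sum_prod_type]
      have e : ∀ s j, (lam s * mu j / n) * ((Avec s i : ℚ) + Bvec j i) =
          (lam s * Avec s i / n) * mu j + lam s / n * (mu j * Bvec j i) := by
        intro s j; field_simp
      simp only [e, Finset.sum_add_distrib, ← Finset.mul_sum, hmsum]
      rw [← Finset.sum_mul, ← Finset.sum_mul, ← Finset.sum_div, ← Finset.sum_div, hlsum]
      field_simp
    have hle : ∑ s, lam s * (Avec s i : ℚ) + ∑ j, mu j * (Bvec j i : ℚ) ≤ β i := by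
      rw [Fin.sum_univ_two, Fin.sum_univ_four]
      fin_cases i
      · simp [hlam, hmu, Avec, Bvec]; linarith
      · simp [hlam, hmu, Avec, Bvec]; linarith
      · simp [hlam, hmu, Avec, Bvec]; linarith
      · simp [hlam, hmu, Avec, Bvec]; linarith
      · simp [hlam, hmu, Avec, Bvec]; linarith
    have : ((∑ p, c p * (Avec p.1 i + Bvec p.2 i) : ℕ) : ℚ) ≤ ((N * β i : ℕ) : ℚ) := by
      push_cast
      have e : ∑ p : Fin 2 × Fin 4, (c p : ℚ) * ((Avec p.1 i : ℚ) + Bvec p.2 i) =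
          N * ∑ p : Fin 2 × Fin 4, (lam p.1 * mu p.2 / n) * ((Avec p.1 i : ℚ) + Bvec p.2 i) := by
        rw [Finset.mul_sum]
        refine Finset.sum_congr rfl fun p hp => ?_
        rw [hc p hp]; ring
      rw [e, key]
      exact mul_le_mul_of_nonneg_left hle (Nat.cast_nonneg _)
    exact_mod_cast this

/-- The ideal. -/
noncomputable def S : Set (Fin 5 →₀ ℕ) := Set.range G

theorem mono_mem {K : Type} [Field K] (c : Fin 2 × Fin 4 → ℕ) {γ : Fin 5 →₀ ℕ}
    (h : ∑ p, c p • G p ≤ γ) :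
    (monomial γ (1 : K)) ∈ (Ideal.span
      ((fun s : Fin 5 →₀ ℕ => MvPolynomial.monomial s (1 : K)) '' S)) ^ (∑ p, c p) := by
  obtain ⟨δ, rfl⟩ := exists_add_of_le h
  have e0 : monomial (∑ p, c p • G p + δ) (1 : K) =
      monomial δ 1 * monomial (∑ p, c p • G p) 1 := by
    rw [monomial_mul, one_mul, add_comm]
  have e1 : monomial (∑ p, c p • G p) (1 : K) = ∏ p, (monomial (G p) (1 : K)) ^ c p := by
    rw [monomial_sum_one]
    exact Finset.prod_congr rfl fun p _ => by rw [monomial_pow, one_pow]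
  rw [e0, e1]
  apply Ideal.mul_mem_left
  rw [← Finset.prod_pow_eq_pow_sum]
  apply Ideal.prod_mem_prod
  intro p _
  have hG : monomial (G p) (1 : K) ∈ Ideal.span
      ((fun s : Fin 5 →₀ ℕ => MvPolynomial.monomial s (1 : K)) '' S) :=
    Ideal.subset_span ⟨G p, ⟨p, rfl⟩, rfl⟩
  exact Ideal.pow_mem_pow hG _

theorem closure_eq (K : Type) [Field K] (n : ℕ) (hn : 1 ≤ n) (hn3 : n ≤ 3) :
    Ideal.span {f : MvPolynomial (Fin 5) K | ∃ N : ℕ, 1 ≤ N ∧
      ∃ a : ℕ → MvPolynomial (Fin 5) K,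
        (∀ i : ℕ, a i ∈ ((Ideal.span
            ((fun s : Fin 5 →₀ ℕ => MvPolynomial.monomial s (1 : K)) '' S)) ^ n) ^ i) ∧
        f ^ N + ∑ i ∈ Finset.range N, a (N - i) * f ^ i = 0} =
    Q K W (fun j => n * B j) := by
  apply le_antisymm
  · rw [Ideal.span_le]
    rintro f ⟨N, hN, a, ha, hf⟩
    show f ∈ Q K W (fun j => n * B j)
    rw [mem_Q_dvd]
    intro j
    exact integral_dvd (w := W j) (b := B j) (S := S)
      (by rintro _ ⟨p, rfl⟩; exact B_le_G p j) hN ha hf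
  · intro f hf
    rw [f.as_sum]
    refine Ideal.sum_mem _ fun α hα => ?_
    have h1 : monomial α (coeff α f) = C (coeff α f) * monomial α 1 := by
      rw [C_mul_monomial, mul_one]
    rw [h1]
    apply Ideal.mul_mem_left
    apply Ideal.subset_span
    obtain ⟨N, hN, c, hc, hcβ⟩ := comb hn hn3 (β := α) (fun j => mem_Q.mp hf j α hα)
    refine ⟨N, hN, fun j => if j = N then - monomial (N • α) 1 else 0, ?_, ?_⟩
    · intro i
      dsimp only
      split_ifs with hi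
      · subst hi
        rw [← pow_mul, ← hc]
        refine neg_mem (mono_mem c ?_)
        intro x
        have := hcβ x
        simp only [Finsupp.coe_finsetSum, Finset.sum_apply, Finsupp.smul_apply, smul_eq_mul,
          G_apply]
        exact this
      · exact Ideal.zero_mem _
    · obtain ⟨M, rfl⟩ : ∃ M, N = M + 1 := ⟨N - 1, by omega⟩
      rw [Finset.sum_range_succ']
      rw [Finset.sum_eq_zero]
      · simp [monomial_pow]
      · intro i hi
        dsimp only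
        have hne : ¬ (M + 1 - (i + 1) = M + 1) := by omega
        rw [if_neg hne, zero_mul]

end Pool.Agent.Y789.DI
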