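import Mathlib

/-!
Existence of the weights of a convex combination (Fourier-Motzkin elimination).
-/

set_option autoImplicit false

namespace Pool.Agent.Y789.DI

theorem between (L U : List ℚ) (hL : L ≠ []) (h : ∀ l ∈ L, ∀ u ∈ U, l ≤ u) :
    ∃ x, (∀ l ∈ L, l ≤ x) ∧ ∀ u ∈ U, x ≤ u := by
  obtain ⟨m, hm, hmax⟩ := Finset.exists_max_image L.toFinset id
    (by rw [List.toFinset_nonempty_iff]; exact hL)
  refine ⟨m, fun l hl => hmax l (List.mem_toFinset.mpr hl), fun u hu => ?_⟩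
  exact h m (List.mem_toFinset.mp hm) u hu

theorem weights {n b1 b2 b3 b4 b5 : ℚ}
    (f0 : 0 ≤ (1) * b5)
    (f1 : 0 ≤ (-13) * n + (1) * b2 + (1) * b3 + (1) * b4)
    (f2 : 0 ≤ (-43) * n + (3) * b3 + (4) * b4 + (4) * b5)
    (f3 : 0 ≤ (-12) * n + (4) * b1 + (4) * b2 + (1) * b3)
    (f4 : 0 ≤ (-1) * n + (1) * b2 + (1) * b5)
    (f5 : 0 ≤ (1) * b1)
    (f6 : 0 ≤ (1) * b2)
    (f7 : 0 ≤ (1) * n)
    (f8 : 0 ≤ (-4) * n + (1) * b4 + (4) * b5)
    (f9 : 0 ≤ (1) * b4)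
    (f10 : 0 ≤ (-12) * n + (8) * b2 + (1) * b3)
    (f11 : 0 ≤ (-14) * n + (1) * b1 + (1) * b2 + (1) * b3 + (1) * b4 + (1) * b5)
    (f12 : 0 ≤ (-13) * n + (2) * b1 + (1) * b3 + (1) * b4)
    (f13 : 0 ≤ (-11) * n + (1) * b3 + (1) * b4)
    (f14 : 0 ≤ (-65) * n + (5) * b3 + (6) * b4)
    (f15 : 0 ≤ (-8) * n + (8) * b1 + (1) * b3)
    (f16 : 0 ≤ (1) * b3)
    (f17 : 0 ≤ (-8) * n + (4) * b2 + (1) * b3)
    : ∃ t m0 m2 m3 : ℚ, 0 ≤ (-1) * m0 + (-1) * m3 + (1) * b1 ∧ 0 ≤ (1) * m2 + (-1) * m3 + (-1) * n + (1) * b2 ∧ 0 ≤ (1) * t + (4) * m0 + (-4) * m2 + (8) * m3 + (-9) * n + (1) * b3 ∧ 0 ≤ (-1) * t + (-3) * m0 + (4) * m2 + (-6) * m3 + (-4) * n + (1) * b4 ∧ 0 ≤ (-1) * m2 + (1) * b5 ∧ 0 ≤ (1) * m0 ∧ 0 ≤ (-1) * m0 + (-1) * m2 + (-1) * m3 + (1) * n ∧ 0 ≤ (1) * m2 ∧ 0 ≤ (1) * m3 ∧ 0 ≤ (1) * t ∧ 0 ≤ (-1) * t + (1) * n := by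
  obtain ⟨m3, lm3, um3⟩ := between
    [(-(0)) / 1,
      (-((-13) * n + (1) * b1 + (1) * b3 + (1) * b4)) / 1,
      (-((-12) * n + (1) * b3 + (1) * b4)) / 1,
      (-((-91) * n + (7) * b3 + (8) * b4)) / 4,
      (-((-8) * n + (4) * b1 + (1) * b3)) / 4,
      (-((-4) * n + (1) * b3)) / 4]
    [((-1) * n + (1) * b2 + (1) * b5) / 1,
      ((1) * b1) / 1,
      ((1) * b2) / 2,
      ((1) * n) / 1,
      ((-4) * n + (1) * b4 + (4) * b5) / 6,
      ((1) * b4) / 10,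
      ((-12) * n + (8) * b2 + (1) * b3) / 4]
    (by simp) (by
      intro l hl u hu
      simp only [List.mem_cons, List.not_mem_nil, or_false] at hl hu
      rcases hl with rfl | rfl | rfl | rfl | rfl | rfl <;> rcases hu with rfl | rfl | rfl | rfl | rfl | rfl | rfl <;> linarith)
  simp only [List.mem_cons, List.not_mem_nil, or_false, forall_eq_or_imp, forall_eq] at lm3 um3
  obtain ⟨lm30, lm31, lm32, lm33, lm34, lm35⟩ := lm3
  obtain ⟨um30, um31, um32, um33, um34, um35, um36⟩ := um3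
  obtain ⟨m0, lm0, um0⟩ := between
    [(-(0)) / 1,
      (-((2) * m3 + (-13) * n + (1) * b3 + (1) * b4)) / 1,
      (-((4) * m3 + (-12) * n + (4) * b2 + (1) * b3)) / 4,
      (-((8) * m3 + (-8) * n + (1) * b3)) / 4]
    [((-1) * m3 + (1) * b1) / 1,
      ((-2) * m3 + (1) * b2) / 1,
      ((-1) * m3 + (1) * n) / 1,
      ((-6) * m3 + (-4) * n + (1) * b4 + (4) * b5) / 3,
      ((-10) * m3 + (1) * b4) / 7]
    (by simp) (by
      intro l hl u hu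
      simp only [List.mem_cons, List.not_mem_nil, or_false] at hl hu
      rcases hl with rfl | rfl | rfl | rfl <;> rcases hu with rfl | rfl | rfl | rfl | rfl <;> linarith)
  simp only [List.mem_cons, List.not_mem_nil, or_false, forall_eq_or_imp, forall_eq] at lm0 um0
  obtain ⟨lm00, lm01, lm02, lm03⟩ := lm0
  obtain ⟨um00, um01, um02, um03, um04⟩ := um0
  obtain ⟨m2, lm2, um2⟩ := between
    [(-((-1) * m3 + (-1) * n + (1) * b2)) / 1,
      (-(0)) / 1,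
      (-((-3) * m0 + (-6) * m3 + (-4) * n + (1) * b4)) / 4]
    [((1) * b5) / 1,
      ((-1) * m0 + (-1) * m3 + (1) * n) / 1,
      ((4) * m0 + (8) * m3 + (-8) * n + (1) * b3) / 4]
    (by simp) (by
      intro l hl u hu
      simp only [List.mem_cons, List.not_mem_nil, or_false] at hl hu
      rcases hl with rfl | rfl | rfl <;> rcases hu with rfl | rfl | rfl <;> linarith)
  simp only [List.mem_cons, List.not_mem_nil, or_false, forall_eq_or_imp, forall_eq] at lm2 um2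
  obtain ⟨lm20, lm21, lm22⟩ := lm2
  obtain ⟨um20, um21, um22⟩ := um2
  obtain ⟨t, lt, ut⟩ := between
    [(-((4) * m0 + (-4) * m2 + (8) * m3 + (-9) * n + (1) * b3)) / 1,
      (-(0)) / 1]
    [((-3) * m0 + (4) * m2 + (-6) * m3 + (-4) * n + (1) * b4) / 1,
      ((1) * n) / 1]
    (by simp) (by
      intro l hl u hu
      simp only [List.mem_cons, List.not_mem_nil, or_false] at hl hu
      rcases hl with rfl | rfl <;> rcases hu with rfl | rfl <;> linarith)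
  simp only [List.mem_cons, List.not_mem_nil, or_false, forall_eq_or_imp, forall_eq] at lt ut
  obtain ⟨lt0, lt1⟩ := lt
  obtain ⟨ut0, ut1⟩ := ut
  refine ⟨t, m0, m2, m3, ?_, ?_, ?_, ?_, ?_, ?_, ?_, ?_, ?_, ?_, ?_⟩ <;> linarith

/-- Common denominators. -/
theorem exists_den {ι : Type} (s : Finset ι) (q : ι → ℚ) (hq : ∀ i ∈ s, 0 ≤ q i) :
    ∃ N : ℕ, 1 ≤ N ∧ ∃ c : ι → ℕ, ∀ i ∈ s, (c i : ℚ) = N * q i := by
  classical
  refine ⟨∏ i ∈ s, (q i).den, Finset.one_le_prod' fun i _ => (q i).den_pos, ?_⟩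
  refine ⟨fun i => (q i).num.toNat * ∏ k ∈ s.erase i, (q k).den, fun i hi => ?_⟩
  have h1 : (((q i).num.toNat : ℕ) : ℚ) = (q i).num := by
    have : (0 : ℤ) ≤ (q i).num := Rat.num_nonneg.mpr (hq i hi)
    have h2 : (((q i).num.toNat : ℕ) : ℤ) = (q i).num := Int.toNat_of_nonneg this
    exact_mod_cast congrArg (fun z : ℤ => (z : ℚ)) h2
  have h3 : ((q i).den : ℚ) ≠ 0 := by exact_mod_cast (q i).den_pos.ne'
  have h4 : (q i).num = (q i).den * q i := by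
    rw [mul_comm]; exact (Rat.mul_den_eq_num (q i)).symm
  rw [← Finset.mul_prod_erase s (fun i => (q i).den) hi]
  push_cast
  rw [h1, h4]
  ring

end Pool.Agent.Y789.DI
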