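import Pool.Agent.Y789.DI.Gen
import Pool.Agent.Y789.DI.Wt

/-!
The ideal `I = (x₃, x₄) · (x₁x₂x₃⁴x₄⁷, x₂x₃⁸x₄⁴, x₃¹²x₅, x₁x₂²x₄¹⁰)`.
-/

set_option autoImplicit false

open MvPolynomial

namespace Pool.Agent.Y789.DI

/-- The normals of the facets of the Newton polyhedron whose support is not full. -/
def W : Fin 11 → Fin 5 → ℕ :=
  ![![0,0,3,4,4], ![4,4,1,0,0], ![2,0,1,1,0], ![0,1,1,1,0], ![0,1,0,0,1], ![0,0,0,1,4],
    ![0,0,5,6,0], ![0,0,1,1,0], ![0,8,1,0,0], ![0,4,1,0,0], ![8,0,1,0,0]]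

/-- The values of the facets. -/
def B : Fin 11 → ℕ := ![43, 12, 13, 13, 1, 4, 65, 11, 12, 8, 8]

section wts

variable (α : Fin 5 →₀ ℕ)

theorem w0 : wt (W 0) α = 3 * α 2 + 4 * α 3 + 4 * α 4 := by
  simp [wt, Fin.sum_univ_five, W]
theorem w1 : wt (W 1) α = 4 * α 0 + 4 * α 1 + α 2 := by
  simp [wt, Fin.sum_univ_five, W]
theorem w2 : wt (W 2) α = 2 * α 0 + α 2 + α 3 := by
  simp [wt, Fin.sum_univ_five, W]
theorem w3 : wt (W 3) α = α 1 + α 2 + α 3 := by
  simp [wt, Fin.sum_univ_five, W]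
theorem w4 : wt (W 4) α = α 1 + α 4 := by
  simp [wt, Fin.sum_univ_five, W]
theorem w5 : wt (W 5) α = α 3 + 4 * α 4 := by
  simp [wt, Fin.sum_univ_five, W]
theorem w6 : wt (W 6) α = 5 * α 2 + 6 * α 3 := by
  simp [wt, Fin.sum_univ_five, W]
theorem w7 : wt (W 7) α = α 2 + α 3 := by
  simp [wt, Fin.sum_univ_five, W]
theorem w8 : wt (W 8) α = 8 * α 1 + α 2 := by
  simp [wt, Fin.sum_univ_five, W]
theorem w9 : wt (W 9) α = 4 * α 1 + α 2 := by
  simp [wt, Fin.sum_univ_five, W]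
theorem w10 : wt (W 10) α = 8 * α 0 + α 2 := by
  simp [wt, Fin.sum_univ_five, W]

end wts

theorem B_eq : B 0 = 43 ∧ B 1 = 12 ∧ B 2 = 13 ∧ B 3 = 13 ∧ B 4 = 1 ∧ B 5 = 4 ∧ B 6 = 65 ∧
    B 7 = 11 ∧ B 8 = 12 ∧ B 9 = 8 ∧ B 10 = 8 := by decide

theorem card_W : ∀ j, ∀ i : Fin 5, ∃ i', i' ≠ i ∧ W j i' = 0 := by decide

/-- Level three: the violated facets are connected. -/
theorem link (α : Fin 5 →₀ ℕ) (j1 j2 : Fin 11) (h1 : wt (W j1) α < 3 * B j1)
    (h2 : wt (W j2) α < 3 * B j2) :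
    ∃ j3, wt (W j3) α < 3 * B j3 ∧ (∃ z, W j1 z = 0 ∧ W j3 z = 0) ∧
      (∃ z, W j3 z = 0 ∧ W j2 z = 0) := by
  obtain ⟨b0, b1, b2, b3, b4, b5, b6, b7, b8, b9, b10⟩ := B_eq
  by_cases hcom : ∃ z, W j1 z = 0 ∧ W j2 z = 0
  · refine ⟨j1, h1, ?_, hcom⟩
    obtain ⟨z, hz, _⟩ := hcom
    exact ⟨z, hz, hz⟩
  have e01 : wt (W 0) α < 3 * B 0 → wt (W 1) α < 3 * B 1 →
      wt (W 2) α < 3 * B 2 ∨ wt (W 3) α < 3 * B 3 ∨ wt (W 4) α < 3 * B 4 := by
    rw [w0, w1, w2, w3, w4, b0, b1, b2, b3, b4]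
    omega
  have e15 : wt (W 1) α < 3 * B 1 → wt (W 5) α < 3 * B 5 →
      wt (W 4) α < 3 * B 4 ∨ wt (W 6) α < 3 * B 6 := by
    rw [w1, w5, w4, w6, b1, b5, b4, b6]
    omega
  have e24 : wt (W 2) α < 3 * B 2 → wt (W 4) α < 3 * B 4 →
      wt (W 1) α < 3 * B 1 ∨ wt (W 3) α < 3 * B 3 ∨ wt (W 5) α < 3 * B 5 ∨
        wt (W 8) α < 3 * B 8 ∨ wt (W 10) α < 3 * B 10 := by
    rw [w1, w2, w3, w4, w5, w8, w10, b1, b2, b3, b4, b5, b8, b10]
    intro h2 h4
    by_contra hc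
    push Not at hc
    obtain ⟨c1, c3, c5, c8, c10⟩ := hc
    have : α 1 ≤ 2 := by omega
    have : α 4 ≤ 2 := by omega
    interval_cases h1 : α 1 <;> interval_cases h4 : α 4 <;> omega
  have hex : (j1 = 0 ∧ j2 = 1) ∨ (j1 = 1 ∧ j2 = 0) ∨ (j1 = 2 ∧ j2 = 4) ∨ (j1 = 4 ∧ j2 = 2) ∨
      (j1 = 1 ∧ j2 = 5) ∨ (j1 = 5 ∧ j2 = 1) := by
    clear h1 h2 e01 e15 e24
    revert j1 j2
    decide
  rcases hex with ⟨rfl, rfl⟩ | ⟨rfl, rfl⟩ | ⟨rfl, rfl⟩ | ⟨rfl, rfl⟩ | ⟨rfl, rfl⟩ | ⟨rfl, rfl⟩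
  · rcases e01 h1 h2 with h | h | h
    · exact ⟨2, h, by decide, by decide⟩
    · exact ⟨3, h, by decide, by decide⟩
    · exact ⟨4, h, by decide, by decide⟩
  · rcases e01 h2 h1 with h | h | h
    · exact ⟨2, h, by decide, by decide⟩
    · exact ⟨3, h, by decide, by decide⟩
    · exact ⟨4, h, by decide, by decide⟩
  · rcases e24 h1 h2 with h | h | h | h | h
    · exact ⟨1, h, by decide, by decide⟩
    · exact ⟨3, h, by decide, by decide⟩
    · exact ⟨5, h, by decide, by decide⟩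
    · exact ⟨8, h, by decide, by decide⟩
    · exact ⟨10, h, by decide, by decide⟩
  · rcases e24 h2 h1 with h | h | h | h | h
    · exact ⟨1, h, by decide, by decide⟩
    · exact ⟨3, h, by decide, by decide⟩
    · exact ⟨5, h, by decide, by decide⟩
    · exact ⟨8, h, by decide, by decide⟩
    · exact ⟨10, h, by decide, by decide⟩
  · rcases e15 h1 h2 with h | h
    · exact ⟨4, h, by decide, by decide⟩
    · exact ⟨6, h, by decide, by decide⟩
  · rcases e15 h2 h1 with h | h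
    · exact ⟨4, h, by decide, by decide⟩
    · exact ⟨6, h, by decide, by decide⟩

theorem conn {K : Type} [Field K] (α : Fin 5 →₀ ℕ) (c : Fin 5 → K)
    (hc : ∀ x y, (∃ j, wt (W j) (α + Finsupp.single x 1 + Finsupp.single y 1) < 3 * B j) →
      c x = c y) :
    ∃ c0, ∀ i, (∃ j, wt (W j) (α + Finsupp.single i 1) < 3 * B j) → c i = c0 := by
  have hin : ∀ j, wt (W j) α < 3 * B j → ∀ x y, W j x = 0 → W j y = 0 → c x = c y := by
    intro j hlt x y hx hy
    apply hc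
    refine ⟨j, ?_⟩
    rw [wt_add, wt_add, wt_single, wt_single, hx, hy]
    exact hlt
  have hout : ∀ j i, wt (W j) (α + Finsupp.single i 1) < 3 * B j → ∀ y, W j y = 0 →
      c i = c y := by
    intro j i hlt y hy
    apply hc
    refine ⟨j, ?_⟩
    rw [wt_add _ (α + _), wt_single, hy]
    exact hlt
  have hheavy : ∀ j i, wt (W j) (α + Finsupp.single i 1) < 3 * B j → wt (W j) α < 3 * B j := by
    intro j i hlt
    rw [wt_add] at hlt
    omega
  by_cases hex : ∃ j, wt (W j) α < 3 * B j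
  · obtain ⟨j1, hj1⟩ := hex
    obtain ⟨x1, -, hx1⟩ := card_W j1 0
    refine ⟨c x1, ?_⟩
    rintro i ⟨j2, hlt⟩
    obtain ⟨x2, -, hx2⟩ := card_W j2 0
    obtain ⟨j3, hj3, ⟨z, hz1, hz3⟩, ⟨z', hz3', hz2⟩⟩ := link α j1 j2 hj1 (hheavy j2 i hlt)
    rw [hout j2 i hlt z' hz2, hin j3 hj3 z' z hz3' hz3, hin j1 hj1 z x1 hz1 hx1]
  · push Not at hex
    refine ⟨0, ?_⟩
    rintro i ⟨j, hlt⟩
    exact absurd (hheavy j i hlt) (by have := hex j; omega)

/-- There is a regular sequence of length two at level three. -/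
theorem level3 (K : Type) [Field K] :
    ∃ rs : List (MvPolynomial (Fin 5) K), rs.length = 2 ∧ (∀ x ∈ rs, x ∈ MM 5 K) ∧
      RingTheory.Sequence.IsRegular
        (MvPolynomial (Fin 5) K ⧸ Q K W (fun j => 3 * B j)) rs :=
  two_exists (0 : Fin 11) (by decide) (by norm_num) card_W (fun α c hc => conn α c hc)

/-- The exponent of the socle element. -/
noncomputable def al : Fin 5 →₀ ℕ := Finsupp.equivFunOnFinite.symm ![1, 2, 11, 13, 0]

theorem al_apply (i : Fin 5) : al i = (![1, 2, 11, 13, 0] : Fin 5 → ℕ) i := rfl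

theorem al_vals : al 0 = 1 ∧ al 1 = 2 ∧ al 2 = 11 ∧ al 3 = 13 ∧ al 4 = 0 := by
  simp [al_apply]

theorem wal : ∀ j, wt (W j) al =
    (![85, 23, 26, 26, 2, 13, 133, 24, 27, 19, 19] : Fin 11 → ℕ) j := by
  obtain ⟨h0, h1, h2, h3, h4⟩ := al_vals
  intro j
  fin_cases j
  · show wt (W 0) al = 85; rw [w0]; omega
  · show wt (W 1) al = 23; rw [w1]; omega
  · show wt (W 2) al = 26; rw [w2]; omega
  · show wt (W 3) al = 26; rw [w3]; omega
  · show wt (W 4) al = 2; rw [w4]; omega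
  · show wt (W 5) al = 13; rw [w5]; omega
  · show wt (W 6) al = 133; rw [w6]; omega
  · show wt (W 7) al = 24; rw [w7]; omega
  · show wt (W 8) al = 27; rw [w8]; omega
  · show wt (W 9) al = 19; rw [w9]; omega
  · show wt (W 10) al = 19; rw [w10]; omega

/-- There is no regular sequence of length two at level two. -/
theorem level2 {K : Type} [Field K] {f g : MvPolynomial (Fin 5) K}
    (hf : f ∈ MM 5 K) (hg : g ∈ MM 5 K)
    (hfr : ∀ x, f * x ∈ Q K W (fun j => 2 * B j) → x ∈ Q K W (fun j => 2 * B j))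
    (hgr : ∀ x y, g * x - f * y ∈ Q K W (fun j => 2 * B j) →
      ∃ z, x - f * z ∈ Q K W (fun j => 2 * B j)) : False := by
  classical
  set s : Fin 5 → MvPolynomial (Fin 5) K := fun i =>
    if i = 0 ∨ i = 1 then monomial (al + Finsupp.single i 1) 1 else 0 with hs
  have hmem : ∀ i j : Fin 5, (i = 0 ∨ i = 1) → ¬ (j = 0 ∨ j = 1) →
      (X j * monomial (al + Finsupp.single i 1) 1 : MvPolynomial (Fin 5) K) ∈
        Q K W (fun j => 2 * B j) := by
    intro i j hi hj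
    have e : (X j * monomial (al + Finsupp.single i 1) 1 : MvPolynomial (Fin 5) K) =
        monomial (al + Finsupp.single i 1 + Finsupp.single j 1) 1 := by
      rw [X, monomial_mul, one_mul, add_comm]
    rw [e, mem_Q]
    intro k α hα
    have hα' := Finset.mem_singleton.mp (support_monomial_subset hα)
    subst hα'
    rw [wt_add, wt_add, wt_single, wt_single, wal]
    have : ∀ (i j : Fin 5), (i = 0 ∨ i = 1) → ¬ (j = 0 ∨ j = 1) → ∀ k : Fin 11,
      2 * B k ≤ (![85, 23, 26, 26, 2, 13, 133, 24, 27, 19, 19] : Fin 11 → ℕ) k + W k i + W k j := by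
      decide
    exact this i j hi hj k
  obtain ⟨v, hv⟩ := cocycle (I := Q K W (fun j => 2 * B j)) (s := s) (by
    intro i j
    by_cases hi : i = 0 ∨ i = 1
    · by_cases hj : j = 0 ∨ j = 1
      · have : X j * s i - X i * s j = 0 := by
          have e : Finsupp.single j 1 + (al + Finsupp.single i 1) =
              Finsupp.single i 1 + (al + Finsupp.single j 1) := by
            ext x
            simp only [Finsupp.add_apply]
            omega
          simp only [hs, if_pos hi, if_pos hj]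
          rw [X, X, monomial_mul, monomial_mul, e, sub_self]
        rw [this]; exact Ideal.zero_mem _
      · simp only [hs, if_pos hi, if_neg hj, mul_zero, sub_zero]
        exact hmem i j hi hj
    · by_cases hj : j = 0 ∨ j = 1
      · simp only [hs, if_neg hi, if_pos hj, mul_zero, zero_sub]
        exact neg_mem (hmem j i hj hi)
      · simp only [hs, if_neg hi, if_neg hj, mul_zero, sub_zero]
        exact Ideal.zero_mem _) hf hg hfr hgr
  have h0 := coeff_of_mem (hv 0) (j := (0 : Fin 11)) (α := al + Finsupp.single 0 1) (by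
    rw [wt_add, wt_single, wal]; decide)
  have h3 := coeff_of_mem (hv 3) (j := (1 : Fin 11)) (α := al + Finsupp.single 3 1) (by
    rw [wt_add, wt_single, wal]; decide)
  rw [coeff_sub, coeff_X_mul_add] at h0 h3
  have hs0 : s 0 = monomial (al + Finsupp.single 0 1) 1 := by simp [hs]
  have hs3 : s 3 = 0 := by simp [hs]
  rw [hs0, coeff_monomial, if_pos rfl] at h0
  rw [hs3, coeff_zero] at h3
  have h4 : coeff al v = 0 := by
    have := sub_eq_zero.mp h3; exact this.symm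
  rw [h4, sub_zero] at h0
  exact one_ne_zero h0

end Pool.Agent.Y789.DI
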