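import Mathlib

/-!
Monomial ideals given by finitely many linear inequalities on the exponents: integral elements,
regular sequences of length two.  (The general part adapts the file `Pool/Agent/S00852.lean` of the
starting library from the weights of subsets to arbitrary weights.)
-/

set_option autoImplicit false

open MvPolynomial

namespace Pool.Agent.Y789.DI

variable {r : ℕ} {K : Type} [Field K] {ι : Type}

/-- The value of the linear form `w` at an exponent. -/
def wt (w : Fin r → ℕ) (α : Fin r →₀ ℕ) : ℕ := ∑ i, w i * α i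

theorem wt_add (w : Fin r → ℕ) (α β : Fin r →₀ ℕ) : wt w (α + β) = wt w α + wt w β := by
  simp only [wt, ← Finset.sum_add_distrib]
  refine Finset.sum_congr rfl fun i _ => ?_
  simp [mul_add]

theorem wt_single (w : Fin r → ℕ) (a : Fin r) : wt w (Finsupp.single a 1) = w a := by
  simp only [wt]
  rw [Finset.sum_eq_single a]
  · simp
  · intro b _ hb
    simp [Finsupp.single_apply, Ne.symm hb]
  · simp

theorem wt_mono (w : Fin r → ℕ) {α β : Fin r →₀ ℕ} (h : α ≤ β) : wt w α ≤ wt w β :=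
  Finset.sum_le_sum fun i _ => Nat.mul_le_mul_left _ (h i)

theorem wt_nsmul (w : Fin r → ℕ) (n : ℕ) (α : Fin r →₀ ℕ) : wt w (n • α) = n * wt w α := by
  simp only [wt, Finset.mul_sum]
  refine Finset.sum_congr rfl fun i _ => ?_
  simp [mul_left_comm]

/-- The homomorphism to polynomials in `T` which multiplies the variable `i` by `T ^ (w i)`. -/
noncomputable def φ (w : Fin r → ℕ) :
    MvPolynomial (Fin r) K →+* Polynomial (MvPolynomial (Fin r) K) :=
  eval₂Hom (Polynomial.C.comp C) (fun i => Polynomial.C (X i) * Polynomial.X ^ (w i))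

theorem φ_monomial (w : Fin r → ℕ) (α : Fin r →₀ ℕ) (c : K) :
    φ w (monomial α c) = Polynomial.monomial (wt w α) (monomial α c) := by
  rw [φ, coe_eval₂Hom, eval₂_monomial]
  have : ∀ i, (Polynomial.C (X i) * Polynomial.X ^ (w i) :
      Polynomial (MvPolynomial (Fin r) K)) ^ (α i) =
      Polynomial.C (X i ^ α i) * Polynomial.X ^ (w i * α i) := by
    intro i
    rw [mul_pow, map_pow, ← pow_mul]
  rw [Finsupp.prod_fintype _ _ (by simp)]
  simp_rw [this]
  rw [Finset.prod_mul_distrib, Finset.prod_pow_eq_pow_sum, ← map_prod]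
  rw [← Polynomial.C_mul_X_pow_eq_monomial, monomial_eq, Finsupp.prod_fintype _ _ (by simp)]
  simp [wt, mul_assoc]

theorem dvd_iff {w : Fin r → ℕ} {n : ℕ} {f : MvPolynomial (Fin r) K} :
    Polynomial.X ^ n ∣ φ w f ↔ ∀ α ∈ f.support, n ≤ wt w α := by
  have hφ : φ w f = ∑ α ∈ f.support, Polynomial.monomial (wt w α) (monomial α (coeff α f)) := by
    conv_lhs => rw [f.as_sum, map_sum]
    exact Finset.sum_congr rfl fun α _ => φ_monomial w α _
  rw [Polynomial.X_pow_dvd_iff]
  constructor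
  · intro h α hα
    by_contra hlt
    push Not at hlt
    have h1 := h _ hlt
    rw [hφ, Polynomial.finsetSum_coeff] at h1
    have h2 := congrArg (coeff α) h1
    rw [coeff_sum, Finset.sum_eq_single α] at h2
    · rw [Polynomial.coeff_monomial, if_pos rfl, coeff_monomial, if_pos rfl, coeff_zero] at h2
      exact (mem_support_iff.mp hα) h2
    · intro β _ hβ
      rw [Polynomial.coeff_monomial]
      split_ifs
      · rw [coeff_monomial, if_neg hβ]
      · simp
    · intro h; exact absurd hα h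
  · intro h d hd
    rw [hφ, Polynomial.finsetSum_coeff]
    refine Finset.sum_eq_zero fun α hα => ?_
    rw [Polynomial.coeff_monomial, if_neg]
    have := h α hα
    omega

variable (K) in
/-- The ideal of the polynomials all of whose exponents satisfy the inequalities. -/
noncomputable def Q (w : ι → Fin r → ℕ) (b : ι → ℕ) : Ideal (MvPolynomial (Fin r) K) :=
  ⨅ j, Ideal.comap (φ (w j)) (Ideal.span {Polynomial.X ^ b j})

theorem mem_Q_dvd {w : ι → Fin r → ℕ} {b : ι → ℕ} {f : MvPolynomial (Fin r) K} :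
    f ∈ Q K w b ↔ ∀ j, Polynomial.X ^ b j ∣ φ (w j) f := by
  simp only [Q, Submodule.mem_iInf, Ideal.mem_comap, Ideal.mem_span_singleton]

theorem mem_Q {w : ι → Fin r → ℕ} {b : ι → ℕ} {f : MvPolynomial (Fin r) K} :
    f ∈ Q K w b ↔ ∀ j, ∀ α ∈ f.support, b j ≤ wt (w j) α := by
  simp only [mem_Q_dvd, dvd_iff]

theorem mem_of_coeff {w : ι → Fin r → ℕ} {b : ι → ℕ} {f : MvPolynomial (Fin r) K}
    (h : ∀ α, (∃ j, wt (w j) α < b j) → coeff α f = 0) : f ∈ Q K w b := by
  rw [mem_Q]
  intro j α hα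
  by_contra hlt
  push Not at hlt
  exact (mem_support_iff.mp hα) (h α ⟨j, hlt⟩)

theorem coeff_of_mem {w : ι → Fin r → ℕ} {b : ι → ℕ} {f : MvPolynomial (Fin r) K}
    (h : f ∈ Q K w b) {j : ι} {α : Fin r →₀ ℕ} (hlt : wt (w j) α < b j) : coeff α f = 0 := by
  by_contra h0
  have := (mem_Q.mp h) j α (mem_support_iff.mpr h0)
  omega

/-- An element integral over `I ^ k` satisfies the inequalities of the generators, `k` times. -/
theorem integral_dvd {w : Fin r → ℕ} {b : ℕ} {S : Set (Fin r →₀ ℕ)}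
    (hS : ∀ s ∈ S, b ≤ wt w s) {k N : ℕ} (hN : 1 ≤ N) {f : MvPolynomial (Fin r) K}
    {a : ℕ → MvPolynomial (Fin r) K}
    (ha : ∀ i : ℕ, a i ∈ ((Ideal.span
      ((fun s : Fin r →₀ ℕ => MvPolynomial.monomial s (1 : K)) '' S)) ^ k) ^ i)
    (hf : f ^ N + ∑ i ∈ Finset.range N, a (N - i) * f ^ i = 0) :
    Polynomial.X ^ (k * b) ∣ φ w f := by
  set V : ℕ → Ideal (MvPolynomial (Fin r) K) := fun t =>
    Ideal.comap (φ w) (Ideal.span {Polynomial.X ^ t}) with hV
  have hmem : ∀ {t : ℕ} {x : MvPolynomial (Fin r) K}, x ∈ V t ↔ Polynomial.X ^ t ∣ φ w x := by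
    intro t x
    rw [hV, Ideal.mem_comap, Ideal.mem_span_singleton]
  have h1 : Ideal.span ((fun s : Fin r →₀ ℕ => MvPolynomial.monomial s (1 : K)) '' S) ≤ V b := by
    rw [Ideal.span_le]
    rintro _ ⟨s, hs, rfl⟩
    show _ ∈ V b
    rw [hmem, dvd_iff]
    intro α hα
    have hα' := Finset.mem_singleton.mp (support_monomial_subset hα)
    subst hα'
    exact hS _ hs
  have hmulV : ∀ s t : ℕ, V s * V t ≤ V (s + t) := by
    intro s t
    rw [Ideal.mul_le]
    intro x hx y hy
    rw [hmem] at hx hy ⊢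
    rw [pow_add, map_mul]
    exact mul_dvd_mul hx hy
  have hpow : ∀ m t : ℕ, V t ^ m ≤ V (t * m) := by
    intro m t
    induction m with
    | zero =>
      intro x _
      rw [hmem]; simp
    | succ m ih =>
      rw [pow_succ, mul_add, mul_one]
      exact (Ideal.mul_mono_left ih).trans (hmulV _ _)
  have h2 : ∀ i, Polynomial.X ^ (b * k * i) ∣ φ w (a i) := by
    intro i
    rw [← hmem]
    apply hpow
    exact Ideal.pow_right_mono ((Ideal.pow_right_mono h1 k).trans (hpow k b)) i (ha i)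
  by_contra hnot
  have hbk : b * k = k * b := mul_comm _ _
  obtain ⟨m, hm, hdm, hndm⟩ : ∃ m, m < k * b ∧ Polynomial.X ^ m ∣ φ w f ∧
      ¬ Polynomial.X ^ (m + 1) ∣ φ w f := by
    classical
    have hex : ∃ m, ¬ Polynomial.X ^ m ∣ φ w f := ⟨_, hnot⟩
    have h0 : Nat.find hex ≠ 0 := by
      intro h0
      have := Nat.find_spec hex
      rw [h0, pow_zero] at this
      exact this (one_dvd _)
    obtain ⟨m, hm⟩ := Nat.exists_eq_succ_of_ne_zero h0
    refine ⟨m, ?_, ?_, ?_⟩
    · have := Nat.find_min' hex hnot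
      omega
    · by_contra hc
      have := Nat.find_min' hex hc
      omega
    · have := Nat.find_spec hex
      rwa [hm] at this
  obtain ⟨h, hh⟩ := hdm
  have hXh : ¬ Polynomial.X ∣ h := by
    rintro ⟨g, rfl⟩
    apply hndm
    exact ⟨g, by rw [hh]; ring⟩
  have h3 := congrArg (φ w) hf
  rw [map_add, map_pow, map_sum, map_zero] at h3
  have h4 : Polynomial.X ^ (m * N + 1) ∣
      ∑ i ∈ Finset.range N, φ w (a (N - i) * f ^ i) := by
    apply Finset.dvd_sum
    intro i hi
    rw [Finset.mem_range] at hi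
    rw [map_mul, map_pow]
    have h5 : Polynomial.X ^ (m * i) ∣ φ w f ^ i := by
      rw [hh, mul_pow, ← pow_mul]
      exact Dvd.intro _ rfl
    refine (pow_dvd_pow _ ?_).trans ((pow_add (Polynomial.X : Polynomial (MvPolynomial (Fin r) K))
      (b * k * (N - i)) (m * i)).symm ▸ mul_dvd_mul (h2 (N - i)) h5)
    obtain ⟨e, rfl⟩ : ∃ e, N = i + 1 + e := ⟨N - (i + 1), by omega⟩
    have e1 : i + 1 + e - i = e + 1 := by omega
    rw [e1, hbk]
    have e2 : (m + 1) * (e + 1) ≤ k * b * (e + 1) := Nat.mul_le_mul_right _ hm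
    nlinarith
  have h6 : Polynomial.X ^ (m * N + 1) ∣ φ w f ^ N := by
    have : φ w f ^ N = - ∑ i ∈ Finset.range N, φ w (a (N - i) * f ^ i) := by
      rw [← add_eq_zero_iff_eq_neg]; exact h3
    rw [this]
    exact h4.neg_right
  rw [hh, mul_pow, ← pow_mul, pow_succ] at h6
  have hne : (Polynomial.X ^ (m * N) : Polynomial (MvPolynomial (Fin r) K)) ≠ 0 :=
    pow_ne_zero _ Polynomial.X_ne_zero
  have h7 := (mul_dvd_mul_iff_left hne).mp h6
  exact hXh (Polynomial.prime_X.dvd_of_dvd_pow h7)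

variable (r K) in
/-- The ideal of the variables. -/
noncomputable def MM : Ideal (MvPolynomial (Fin r) K) :=
  Ideal.span (Set.range (X : Fin r → MvPolynomial (Fin r) K))

theorem reg_iff (I : Ideal (MvPolynomial (Fin r) K)) (f : MvPolynomial (Fin r) K) :
    IsSMulRegular (MvPolynomial (Fin r) K ⧸ I) f ↔ ∀ x, f * x ∈ I → x ∈ I := by
  rw [isSMulRegular_quotient_iff_mem_of_smul_mem]
  rfl

theorem mem_quotSMulTop (I : Ideal (MvPolynomial (Fin r) K)) (f x : MvPolynomial (Fin r) K) :
    (Submodule.Quotient.mk (Ideal.Quotient.mk I x) : QuotSMulTop f (MvPolynomial (Fin r) K ⧸ I)) = 0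
      ↔ ∃ y, x - f * y ∈ I := by
  rw [Submodule.Quotient.mk_eq_zero, Submodule.mem_smul_pointwise_iff_exists]
  constructor
  · rintro ⟨y, _, hy⟩
    obtain ⟨y, rfl⟩ := Ideal.Quotient.mk_surjective y
    refine ⟨y, ?_⟩
    rw [← Ideal.Quotient.eq, ← hy]
    rfl
  · rintro ⟨y, hy⟩
    refine ⟨Ideal.Quotient.mk I y, trivial, ?_⟩
    rw [← Ideal.Quotient.eq] at hy
    rw [hy]
    rfl

theorem reg_iff₂ (I : Ideal (MvPolynomial (Fin r) K)) (f g : MvPolynomial (Fin r) K) :
    IsSMulRegular (QuotSMulTop f (MvPolynomial (Fin r) K ⧸ I)) g ↔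
      ∀ x y, g * x - f * y ∈ I → ∃ z, x - f * z ∈ I := by
  rw [isSMulRegular_iff_right_eq_zero_of_smul]
  constructor
  · intro h x y hxy
    rw [← mem_quotSMulTop]
    apply h
    have : (g • (Submodule.Quotient.mk (Ideal.Quotient.mk I x) :
        QuotSMulTop f (MvPolynomial (Fin r) K ⧸ I))) =
        Submodule.Quotient.mk (Ideal.Quotient.mk I (g * x)) := rfl
    rw [this, mem_quotSMulTop]
    exact ⟨y, hxy⟩
  · intro h m hm
    obtain ⟨m, rfl⟩ := Submodule.Quotient.mk_surjective _ m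
    obtain ⟨x, rfl⟩ := Ideal.Quotient.mk_surjective m
    have : (g • (Submodule.Quotient.mk (Ideal.Quotient.mk I x) :
        QuotSMulTop f (MvPolynomial (Fin r) K ⧸ I))) =
        Submodule.Quotient.mk (Ideal.Quotient.mk I (g * x)) := rfl
    rw [this, mem_quotSMulTop] at hm
    obtain ⟨y, hy⟩ := hm
    rw [mem_quotSMulTop]
    exact h x y hy

/-- If `f, g ∈ 𝔪` is a regular sequence, then every cocycle is a coboundary. -/
theorem cocycle {I : Ideal (MvPolynomial (Fin r) K)} {s : Fin r → MvPolynomial (Fin r) K}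
    (hs : ∀ i j, X j * s i - X i * s j ∈ I) {f g : MvPolynomial (Fin r) K}
    (hf : f ∈ MM r K) (hg : g ∈ MM r K) (hfr : ∀ x, f * x ∈ I → x ∈ I)
    (hgr : ∀ x y, g * x - f * y ∈ I → ∃ z, x - f * z ∈ I) :
    ∃ v, ∀ i, s i - X i * v ∈ I := by
  rw [MM, Ideal.mem_span_range_iff_exists_fun] at hf hg
  obtain ⟨p, hp⟩ := hf
  obtain ⟨q, hq⟩ := hg
  obtain ⟨v, hv⟩ := hgr (∑ i, p i * s i) (∑ j, q j * s j) (by
    have : g * (∑ i, p i * s i) - f * (∑ j, q j * s j) =
        ∑ i, ∑ j, p i * q j * (X j * s i - X i * s j) := by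
      simp only [mul_sub, Finset.sum_sub_distrib]
      congr 1
      · rw [← hq, Finset.sum_mul, Finset.sum_comm]
        refine Finset.sum_congr rfl fun j _ => ?_
        rw [Finset.mul_sum]
        refine Finset.sum_congr rfl fun i _ => ?_
        ring
      · rw [← hp, Finset.sum_mul]
        refine Finset.sum_congr rfl fun i _ => ?_
        rw [Finset.mul_sum]
        refine Finset.sum_congr rfl fun j _ => ?_
        ring
    rw [this]
    exact Ideal.sum_mem _ fun i _ => Ideal.sum_mem _ fun j _ => Ideal.mul_mem_left _ _ (hs i j))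
  refine ⟨v, fun i => hfr _ ?_⟩
  have : f * (s i - X i * v) = (∑ j, p j * (X j * s i - X i * s j)) +
      X i * ((∑ j, p j * s j) - f * v) := by
    simp only [mul_sub, Finset.sum_sub_distrib, Finset.mul_sum]
    have e1 : f * s i = ∑ j, p j * (X j * s i) := by
      rw [← hp, Finset.sum_mul]
      exact Finset.sum_congr rfl fun j _ => by ring
    have e2 : ∑ j, p j * (X i * s j) = ∑ j, X i * (p j * s j) :=
      Finset.sum_congr rfl fun j _ => by ring
    rw [e1, e2]; ring
  rw [this]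
  exact Ideal.add_mem _ (Ideal.sum_mem _ fun j _ => Ideal.mul_mem_left _ _ (hs i j))
    (Ideal.mul_mem_left _ _ hv)

theorem sumX_reg {w : ι → Fin r → ℕ} {b : ι → ℕ} (hF : ∀ j, ∃ i, w j i = 0) :
    ∀ x, (∑ i, X i : MvPolynomial (Fin r) K) * x ∈ Q K w b → x ∈ Q K w b := by
  classical
  intro x hx
  rw [mem_Q_dvd] at hx ⊢
  intro j
  have h1 := hx j
  rw [map_mul] at h1
  refine Polynomial.prime_X.pow_dvd_of_dvd_mul_left (b j) ?_ h1
  rw [← pow_one Polynomial.X, dvd_iff]
  intro h
  obtain ⟨i, hi⟩ := hF j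
  have h2 : coeff (Finsupp.single i 1) (∑ i, X i : MvPolynomial (Fin r) K) = 1 := by
    rw [coeff_sum, Finset.sum_eq_single i]
    · simp
    · intro b _ hb
      rw [coeff_X, if_neg]
      intro h
      exact hb (Finsupp.single_left_injective one_ne_zero h)
    · simp
  have h3 := h (Finsupp.single i 1) (mem_support_iff.mpr (by rw [h2]; exact one_ne_zero))
  rw [wt_single, hi] at h3
  omega

theorem coeff_X_mul_add (i : Fin r) (α : Fin r →₀ ℕ) (p : MvPolynomial (Fin r) K) :
    coeff (α + Finsupp.single i 1) (X i * p) = coeff α p := by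
  rw [add_comm, coeff_X_mul]

/-- The Koszul style argument: connectedness gives vanishing. -/
theorem socle_free {w : ι → Fin r → ℕ} {b : ι → ℕ}
    (hcard : ∀ j, ∀ i : Fin r, ∃ i', i' ≠ i ∧ w j i' = 0)
    (hconn : ∀ (α : Fin r →₀ ℕ) (c : Fin r → K),
      (∀ x y, (∃ j, wt (w j) (α + Finsupp.single x 1 + Finsupp.single y 1) < b j) → c x = c y) →
      ∃ c0, ∀ i, (∃ j, wt (w j) (α + Finsupp.single i 1) < b j) → c i = c0)
    {f : MvPolynomial (Fin r) K} (hf : ∀ x, f * x ∈ Q K w b → x ∈ Q K w b)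
    {h : MvPolynomial (Fin r) K} {u : Fin r → MvPolynomial (Fin r) K}
    (hu : ∀ i, X i * h - f * u i ∈ Q K w b) (hr : 0 < r) : ∃ z, h - f * z ∈ Q K w b := by
  classical
  have h1 : ∀ i j, X j * u i - X i * u j ∈ Q K w b := by
    intro i j
    apply hf
    have : f * (X j * u i - X i * u j) =
        X i * (X j * h - f * u j) - X j * (X i * h - f * u i) := by ring
    rw [this]
    exact Ideal.sub_mem _ (Ideal.mul_mem_left _ _ (hu j)) (Ideal.mul_mem_left _ _ (hu i))
  have h2 : ∀ α : Fin r →₀ ℕ, ∃ c0 : K, ∀ i, (∃ j, wt (w j) (α + Finsupp.single i 1) < b j) →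
      coeff (α + Finsupp.single i 1) (u i) = c0 := by
    intro α
    apply hconn α (fun i => coeff (α + Finsupp.single i 1) (u i))
    rintro x y ⟨j, hlt⟩
    have := coeff_of_mem (h1 x y) hlt
    rw [coeff_sub] at this
    rw [coeff_X_mul_add] at this
    rw [add_assoc, add_comm (Finsupp.single x 1), ← add_assoc, coeff_X_mul_add] at this
    exact sub_eq_zero.mp this
  choose c0 hc0 using h2
  set S : Finset (Fin r →₀ ℕ) := Finset.univ.biUnion fun i : Fin r =>
    (u i).support.image fun β => β - Finsupp.single i 1 with hS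
  set z : MvPolynomial (Fin r) K := ∑ α ∈ S, monomial α (c0 α) with hz
  have hzc : ∀ α, coeff α z = if α ∈ S then c0 α else 0 := by
    intro α
    rw [hz, coeff_sum]
    simp only [coeff_monomial]
    rw [Finset.sum_ite_eq' S α]
  have h3 : ∀ i, u i - X i * z ∈ Q K w b := by
    intro i
    apply mem_of_coeff
    rintro β ⟨j, hlt⟩
    rw [coeff_sub]
    by_cases hβ : β i = 0
    · have e1 : coeff β (X i * z) = 0 := by
        rw [coeff_X_mul', if_neg]
        rw [Finsupp.mem_support_iff, not_not]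
        exact hβ
      obtain ⟨i', hji, hj⟩ := hcard j i
      have e2 := coeff_of_mem (h1 i i') (α := β + Finsupp.single i' 1) (j := j)
        (by rw [wt_add, wt_single, hj]; exact hlt)
      rw [coeff_sub, coeff_X_mul_add, coeff_X_mul', if_neg, sub_zero] at e2
      · rw [e1, e2, sub_zero]
      · rw [Finsupp.mem_support_iff, not_not]
        simp [hβ, hji]
    · have hle : Finsupp.single i 1 ≤ β := by
        rw [Finsupp.single_le_iff]; omega
      obtain ⟨γ, rfl⟩ := exists_add_of_le hle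
      rw [add_comm] at hlt ⊢
      rw [coeff_X_mul_add, hzc]
      split_ifs with hγ
      · rw [hc0 γ i ⟨j, hlt⟩, sub_self]
      · rw [sub_zero]
        by_contra h0
        apply hγ
        rw [hS, Finset.mem_biUnion]
        refine ⟨i, Finset.mem_univ _, Finset.mem_image.mpr
          ⟨γ + Finsupp.single i 1, mem_support_iff.mpr h0, ?_⟩⟩
        ext x; simp
  refine ⟨z, ?_⟩
  have h4 : ∀ i, X i * (h - f * z) ∈ Q K w b := by
    intro i
    have : X i * (h - f * z) = (X i * h - f * u i) + f * (u i - X i * z) := by ring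
    rw [this]
    exact Ideal.add_mem _ (hu i) (Ideal.mul_mem_left _ _ (h3 i))
  apply mem_of_coeff
  rintro α ⟨j, hlt⟩
  obtain ⟨i, -, hi⟩ := hcard j ⟨0, hr⟩
  have := coeff_of_mem (h4 i) (α := α + Finsupp.single i 1) (j := j)
    (by rw [wt_add, wt_single, hi]; exact hlt)
  rwa [coeff_X_mul_add] at this

theorem MM_ne_top : MM r K ≠ ⊤ := by
  intro h
  have h1 : (1 : MvPolynomial (Fin r) K) ∈ MM r K := by rw [h]; trivial
  have h2 : MM r K ≤ RingHom.ker (constantCoeff : MvPolynomial (Fin r) K →+* K) := by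
    rw [MM, Ideal.span_le]
    rintro _ ⟨i, rfl⟩
    simp [RingHom.mem_ker]
  have := h2 h1
  rw [RingHom.mem_ker, map_one] at this
  exact one_ne_zero this

theorem Q_le_MM {w : ι → Fin r → ℕ} {b : ι → ℕ} (j : ι) (hj : 1 ≤ b j) :
    Q K w b ≤ MM r K := by
  intro f hf
  rw [f.as_sum]
  refine Ideal.sum_mem _ fun α hα => ?_
  have h1 := mem_Q.mp hf j α hα
  have h2 : ∃ i, α i ≠ 0 := by
    by_contra hc
    push Not at hc
    have : wt (w j) α = 0 := by
      rw [wt]
      exact Finset.sum_eq_zero fun i _ => by rw [hc i, mul_zero]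
    omega
  obtain ⟨i, hi⟩ := h2
  have hle : Finsupp.single i 1 ≤ α := by
    rw [Finsupp.single_le_iff]; omega
  obtain ⟨γ, hγ⟩ := exists_add_of_le hle
  have : monomial α (coeff α f) = X i * monomial γ (coeff α f) := by
    rw [X, monomial_mul, one_mul, ← hγ]
  rw [this]
  exact Ideal.mul_mem_right _ _ (Ideal.subset_span ⟨i, rfl⟩)

theorem isRegular_of_weakly {I : Ideal (MvPolynomial (Fin r) K)} (hI : I ≤ MM r K)
    {rs : List (MvPolynomial (Fin r) K)} (hrs : ∀ x ∈ rs, x ∈ MM r K)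
    (h : RingTheory.Sequence.IsWeaklyRegular (MvPolynomial (Fin r) K ⧸ I) rs) :
    RingTheory.Sequence.IsRegular (MvPolynomial (Fin r) K ⧸ I) rs := by
  refine ⟨h, fun htop => ?_⟩
  have h1 : (Ideal.Quotient.mk I 1) ∈ (Ideal.ofList rs • ⊤ :
      Submodule (MvPolynomial (Fin r) K) (MvPolynomial (Fin r) K ⧸ I)) := by
    rw [← htop]; trivial
  have h2 : (Ideal.ofList rs • ⊤ :
      Submodule (MvPolynomial (Fin r) K) (MvPolynomial (Fin r) K ⧸ I)) ≤
      Submodule.map (Submodule.mkQ I) (MM r K) := by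
    rw [Submodule.smul_le]
    intro a ha x _
    obtain ⟨y, rfl⟩ := Submodule.mkQ_surjective I x
    refine ⟨a * y, ?_, rfl⟩
    have ha' : a ∈ MM r K := by
      have : Ideal.ofList rs ≤ MM r K := by
        rw [Ideal.ofList, Ideal.span_le]
        intro x hx
        exact hrs x hx
      exact this ha
    exact Ideal.mul_mem_right _ _ ha'
  obtain ⟨y, hy, hy1⟩ := h2 h1
  have h3 : y - 1 ∈ I := by
    rw [← Ideal.Quotient.eq]
    exact hy1
  have h4 : (1 : MvPolynomial (Fin r) K) ∈ MM r K := by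
    have : (1 : MvPolynomial (Fin r) K) = y - (y - 1) := by ring
    rw [this]
    exact Ideal.sub_mem _ hy (hI h3)
  exact MM_ne_top ((Ideal.eq_top_iff_one _).mpr h4)

/-- Connectedness gives a regular sequence of length two. -/
theorem two_exists {w : ι → Fin r → ℕ} {b : ι → ℕ} (j0 : ι) (hj0 : 1 ≤ b j0) (hr : 0 < r)
    (hcard : ∀ j, ∀ i : Fin r, ∃ i', i' ≠ i ∧ w j i' = 0)
    (hconn : ∀ (α : Fin r →₀ ℕ) (c : Fin r → K),
      (∀ x y, (∃ j, wt (w j) (α + Finsupp.single x 1 + Finsupp.single y 1) < b j) → c x = c y) →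
      ∃ c0, ∀ i, (∃ j, wt (w j) (α + Finsupp.single i 1) < b j) → c i = c0) :
    ∃ rs : List (MvPolynomial (Fin r) K), rs.length = 2 ∧ (∀ x ∈ rs, x ∈ MM r K) ∧
      RingTheory.Sequence.IsRegular (MvPolynomial (Fin r) K ⧸ Q K w b) rs := by
  set f : MvPolynomial (Fin r) K := ∑ i, X i with hfdef
  have hfMM : f ∈ MM r K := Ideal.sum_mem _ fun i _ => Ideal.subset_span ⟨i, rfl⟩
  have hf : ∀ x, f * x ∈ Q K w b → x ∈ Q K w b := sumX_reg fun j => by
    obtain ⟨i, -, hi⟩ := hcard j ⟨0, hr⟩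
    exact ⟨i, hi⟩
  have key : ∀ y : QuotSMulTop f (MvPolynomial (Fin r) K ⧸ Q K w b),
      (∀ i : Fin r, (X i : MvPolynomial (Fin r) K) • y = 0) → y = 0 := by
    intro y hy
    obtain ⟨y, rfl⟩ := Submodule.mkQ_surjective _ y
    obtain ⟨h, rfl⟩ := Ideal.Quotient.mk_surjective y
    have h1 : ∀ i : Fin r, ∃ u, X i * h - f * u ∈ Q K w b := by
      intro i
      have h2 := hy i
      have h3 : ((X i : MvPolynomial (Fin r) K) •
          (Submodule.mkQ _ (Ideal.Quotient.mk (Q K w b) h) :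
          QuotSMulTop f (MvPolynomial (Fin r) K ⧸ Q K w b))) =
          Submodule.Quotient.mk (Ideal.Quotient.mk (Q K w b) (X i * h)) := rfl
      rw [h3] at h2
      exact (mem_quotSMulTop _ _ _).mp h2
    choose u hu using h1
    exact (mem_quotSMulTop _ _ _).mpr (socle_free hcard hconn hf hu hr)
  have hsub : Subsingleton ((MvPolynomial (Fin r) K ⧸ MM r K) →ₗ[MvPolynomial (Fin r) K]
      QuotSMulTop f (MvPolynomial (Fin r) K ⧸ Q K w b)) := by
    refine ⟨fun φ ψ => ?_⟩
    have h0 : ∀ φ : (MvPolynomial (Fin r) K ⧸ MM r K) →ₗ[MvPolynomial (Fin r) K]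
        QuotSMulTop f (MvPolynomial (Fin r) K ⧸ Q K w b), φ = 0 := by
      intro φ
      have h1 : φ (Ideal.Quotient.mk _ 1) = 0 := by
        apply key
        intro i
        rw [← map_smul]
        have : (X i : MvPolynomial (Fin r) K) • (Ideal.Quotient.mk (MM r K) 1) = 0 := by
          have h3 : (X i : MvPolynomial (Fin r) K) • (Ideal.Quotient.mk (MM r K) 1) =
            Ideal.Quotient.mk (MM r K) (X i * 1) := rfl
          rw [h3, mul_one, Ideal.Quotient.eq_zero_iff_mem]
          exact Ideal.subset_span ⟨i, rfl⟩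
        rw [this, map_zero]
      ext
      simpa using h1
    rw [h0 φ, h0 ψ]
  obtain ⟨g, hg, hgr⟩ := IsSMulRegular.subsingleton_linearMap_iff.mp hsub
  rw [Ideal.annihilator_quotient] at hg
  have hmem : ∀ x ∈ [f, g], x ∈ MM r K := by
    intro x hx
    simp only [List.mem_cons, List.not_mem_nil, or_false] at hx
    rcases hx with rfl | rfl
    · exact hfMM
    · exact hg
  refine ⟨[f, g], rfl, hmem, isRegular_of_weakly (Q_le_MM j0 hj0) hmem ?_⟩
  rw [RingTheory.Sequence.isWeaklyRegular_cons_iff,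
    RingTheory.Sequence.isWeaklyRegular_singleton_iff]
  exact ⟨(reg_iff _ _).mpr hf, hgr⟩

end Pool.Agent.Y789.DI
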